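import Pool.Agent.SGK.Stmts

/-!
# SGK, row MAP: canonical sequences and injective maps
-/

set_option autoImplicit false

namespace Pool.Agent.SGK.H51

open Pool.Agent.SGE Pool.Agent.SGK

theorem map : MapStmt := by
  intro V W e he a b C S h
  induction h with
  | base h => exact Can.base (fun h' => h (he h'))
  | @step P Q mid p q v S h ha hb hv ih =>
    have h1 := @Can.step W (e a) (e b) (P.map e) (Q.map e) (mid.map e) (e p) (e q) (e v)
      (S.map fun y => (e y.1, y.2.map e)) (by simpa using ih) (fun h' => ha (he h'))
      (fun h' => hb (he h')) (by
        intro x hx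
        obtain ⟨y, hy, rfl⟩ := List.mem_map.1 hx
        exact fun h' => hv y hy (he h'))
    simpa using h1

end Pool.Agent.SGK.H51
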